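import Pool.Agent.helper25.TWO.Asm2

/-!
MP_f42afa_pr : algorithms for the crossing event of critical site percolation on the triangular
lattice which first ask the sites in an order fixed in advance up to a stopping time and then ask
one adaptive batch of sites (in particular two-round algorithms) need on average at least c n ^ 2
queries, a positive fraction of all sites.
-/

set_option autoImplicit false

namespace Pool.Agent.Results.MP_f42afa_pr.BatchAlgorithms

open Finset TP.TW

/-- An algorithm with a fixed order and one adaptive batch for the crossing of the n × n rhombus.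
`F 0 ⊆ F 1 ⊆ ...` are fixed sets of sites, asked one after another; the algorithm stops this phase
at the time `τ x`, which depends only on the states seen so far, and then asks all sites of a
batch `B x`, which depends only on the states seen so far.  The states seen determine whether there
is an open crossing. -/
structure Algorithm (n : ℕ) where
  /-- the sets asked in the first phase -/
  F : ℕ → Finset (Fin n × Fin n)
  /-- the stopping time of the first phase -/
  τ : (Fin n × Fin n → Bool) → ℕ
  /-- the batch -/
  B : (Fin n × Fin n → Bool) → Finset (Fin n × Fin n)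
  mono : Monotone F
  adapted : ∀ x y : Fin n × Fin n → Bool, (∀ p ∈ F (τ x), x p = y p) → τ y = τ x ∧ B y = B x
  decides : ∀ x y : Fin n × Fin n → Bool, (∀ p ∈ F (τ x), x p = y p) → (∀ p ∈ B x, x p = y p) →
    (Crossing n x ↔ Crossing n y)

/-- The average number of sites examined, for a uniformly random configuration. -/
noncomputable def Algorithm.cost {n : ℕ} (a : Algorithm n) : ℝ :=
  (∑ x : Fin n × Fin n → Bool, (#(a.F (a.τ x) ∪ a.B x) : ℝ)) / 2 ^ (n * n)

/-- There is c > 0 such that for every n ≥ 2 every randomised algorithm of this kind (the algorithm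
`a ω` is used with probability `w ω`) examines on average at least c n ^ 2 sites. -/
theorem result : ∃ c : ℝ, 0 < c ∧ ∀ n : ℕ, 2 ≤ n →
    ∀ (Ω : Type) [Fintype Ω] (w : Ω → ℝ) (a : Ω → Algorithm n), (∀ ω, 0 ≤ w ω) → ∑ ω, w ω = 1 →
      c * (n : ℝ) ^ 2 ≤ ∑ ω, w ω * (a ω).cost := by
  obtain ⟨c, hc, h⟩ := FIN2_main Asm2_REL
  refine ⟨c, hc, fun n hn Ω _ w a hw hw1 => ?_⟩
  calc c * (n : ℝ) ^ 2 = ∑ ω, w ω * (c * (n : ℝ) ^ 2) := by rw [← Finset.sum_mul, hw1, one_mul]
    _ ≤ ∑ ω, w ω * (a ω).cost := Finset.sum_le_sum fun ω _ =>
        mul_le_mul_of_nonneg_left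
          (h n hn (a ω).F (a ω).τ (a ω).B (a ω).mono (a ω).adapted (a ω).decides) (hw ω)

end Pool.Agent.Results.MP_f42afa_pr.BatchAlgorithms
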