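import Pool.Agent.helper17.RX.Asm

/-!
MP_f42afa_pr : algorithms in `r` rounds for the crossing event of critical site percolation on the
triangular lattice need on average at least `n ^ 2 / (C r ^ 2 log n) ^ (r - 1)` queries, for all `n`
and `r`; in particular `n ^ (2 - ε)` queries if there are at most `c log n / log log n` rounds.
-/

set_option autoImplicit false

namespace Pool.Agent.Results.MP_f42afa_pr.FewRounds

open Finset TP.TW

/-- An algorithm in `r` rounds for the crossing of the n × n rhombus: in each round a whole batch of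
sites is asked, which depends only on the states seen in the earlier rounds.  `S i x` is the set of
the sites asked in the first `i` rounds if the configuration is `x`; after `r` rounds the states
seen determine whether there is an open crossing. -/
structure Algorithm (n r : ℕ) where
  /-- the sites asked in the first `i` rounds -/
  S : ℕ → (Fin n × Fin n → Bool) → Finset (Fin n × Fin n)
  start : ∀ x, S 0 x = ∅
  grow : ∀ i x, S i x ⊆ S (i + 1) x
  adapted : ∀ (i : ℕ) (x y : Fin n × Fin n → Bool), (∀ p ∈ S i x, y p = x p) → S (i + 1) y = S (i + 1) x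
  decides : ∀ x y : Fin n × Fin n → Bool, (∀ p ∈ S r x, y p = x p) → (Crossing n x ↔ Crossing n y)

/-- The average number of sites examined, for a uniformly random configuration. -/
noncomputable def Algorithm.cost {n r : ℕ} (a : Algorithm n r) : ℝ :=
  (∑ x : Fin n × Fin n → Bool, (#(a.S r x) : ℝ)) / 2 ^ (n * n)

theorem biUnion_eq {n r : ℕ} (a : Algorithm n r) (hr : 1 ≤ r) (x : Fin n × Fin n → Bool) :
    ((range r).biUnion fun i => a.S (i + 1) x) = a.S r x := by
  have hm : Monotone fun i => a.S i x := monotone_nat_of_le_succ fun i => a.grow i x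
  apply Finset.Subset.antisymm
  · intro p hp
    rw [Finset.mem_biUnion] at hp
    obtain ⟨i, hi, hp⟩ := hp
    exact hm (by rw [Finset.mem_range] at hi; omega : i + 1 ≤ r) hp
  · intro p hp
    rw [Finset.mem_biUnion]
    exact ⟨r - 1, by rw [Finset.mem_range]; omega, by rwa [Nat.sub_add_cancel hr]⟩

theorem one_algorithm : ∃ C : ℝ, 1 ≤ C ∧ ∀ n r : ℕ, 2 ≤ n → 1 ≤ r → ∀ a : Algorithm n r,
    (n : ℝ) ^ 2 ≤ (C * ((r : ℝ) ^ 2 * Real.log n)) ^ (r - 1) * a.cost := by
  obtain ⟨C, hC, h⟩ := AsX_FNX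
  refine ⟨C, hC, fun n r hn hr a => ?_⟩
  have hb : Adb (fun i => a.S (i + 1)) := by
    intro j x y hxy
    refine (a.adapted j x y ?_).symm
    intro p hp
    rcases j with _ | j
    · rw [a.start] at hp
      simp at hp
    · exact (hxy j (Nat.lt_succ_self j) p hp).symm
  have hd : ∀ x y : Fin n × Fin n → Bool, (∀ i < r, ∀ p ∈ a.S (i + 1) x, x p = y p) →
      (Crossing n x ↔ Crossing n y) := by
    intro x y hxy
    refine a.decides x y fun p hp => ?_
    refine (hxy (r - 1) (by omega) p ?_).symm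
    rwa [Nat.sub_add_cancel hr]
  have h1 := h n r hn hr (fun i => a.S (i + 1)) hb hd
  have h2 : TP.TW.cost (fun i => a.S (i + 1)) r = a.cost := by
    unfold TP.TW.cost Algorithm.cost
    congr 1
    refine Finset.sum_congr rfl fun x _ => ?_
    rw [biUnion_eq a hr x]
  rw [h2] at h1
  exact h1

theorem mixture {Ω : Type} [Fintype Ω] (w f : Ω → ℝ) (hw : ∀ ω, 0 ≤ w ω) (hw1 : ∑ ω, w ω = 1)
    (B : ℝ) (h : ∀ ω, B ≤ f ω) : B ≤ ∑ ω, w ω * f ω := by
  calc B = ∑ ω, w ω * B := by rw [← Finset.sum_mul, hw1, one_mul]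
    _ ≤ ∑ ω, w ω * f ω := Finset.sum_le_sum fun ω _ => mul_le_mul_of_nonneg_left (h ω) (hw ω)

/-- (1) There is C ≥ 1 such that for all n ≥ 2 and r ≥ 1 every randomised algorithm in r rounds (the
algorithm `a ω` is used with probability `w ω`) examines on average at least
n ^ 2 / (C r ^ 2 log n) ^ (r - 1) sites.
(2) For every ε > 0 there is c > 0 such that for all large n every randomised algorithm with at most
c log n / log log n rounds examines on average at least n ^ (2 - ε) sites. -/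
theorem result :
    (∃ C : ℝ, 1 ≤ C ∧ ∀ n r : ℕ, 2 ≤ n → 1 ≤ r →
      ∀ (Ω : Type) [Fintype Ω] (w : Ω → ℝ) (a : Ω → Algorithm n r), (∀ ω, 0 ≤ w ω) → ∑ ω, w ω = 1 →
        (n : ℝ) ^ 2 / (C * ((r : ℝ) ^ 2 * Real.log n)) ^ (r - 1) ≤ ∑ ω, w ω * (a ω).cost) ∧
    (∀ ε : ℝ, 0 < ε → ∃ c : ℝ, 0 < c ∧ ∃ n₀ : ℕ, ∀ n r : ℕ, n₀ ≤ n → 1 ≤ r →
      (r : ℝ) ≤ c * Real.log n / Real.log (Real.log n) →
      ∀ (Ω : Type) [Fintype Ω] (w : Ω → ℝ) (a : Ω → Algorithm n r), (∀ ω, 0 ≤ w ω) → ∑ ω, w ω = 1 →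
        (n : ℝ) ^ (2 - ε) ≤ ∑ ω, w ω * (a ω).cost) := by
  obtain ⟨C, hC, h⟩ := one_algorithm
  refine ⟨⟨C, hC, fun n r hn hr Ω _ w a hw hw1 => ?_⟩, fun ε hε => ?_⟩
  · refine mixture w _ hw hw1 _ fun ω => ?_
    have hl : 0 < Real.log n := Real.log_pos (by exact_mod_cast (by omega : 1 < n))
    have hr0 : (0 : ℝ) < r := by exact_mod_cast (by omega : 0 < r)
    have hpos : 0 < (C * ((r : ℝ) ^ 2 * Real.log n)) ^ (r - 1) := by positivity
    rw [div_le_iff₀ hpos, mul_comm]
    exact h n r hn hr (a ω)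
  · obtain ⟨c, hc, n₀, hn₀, hG⟩ := GRO C ε hC hε
    refine ⟨c, hc, n₀, fun n r hn hr hrc Ω _ w a hw hw1 => ?_⟩
    refine mixture w _ hw hw1 _ fun ω => ?_
    have hn3 : 3 ≤ n := le_trans hn₀ hn
    have h1 := h n r (by omega) hr (a ω)
    have h2 := hG n r hn hr hrc
    have hnr : (3 : ℝ) ≤ n := by exact_mod_cast hn3
    have hl : 1 ≤ Real.log n := by
      rw [Real.le_log_iff_exp_le (by linarith)]
      exact le_trans (le_of_lt Real.exp_one_lt_d9) (by norm_num; linarith)
    have hr1 : (1 : ℝ) ≤ (r : ℝ) ^ 2 := one_le_pow₀ (by exact_mod_cast hr)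
    have hB : 1 ≤ C * ((r : ℝ) ^ 2 * Real.log n) := by
      have : 1 ≤ (r : ℝ) ^ 2 * Real.log n := by nlinarith
      nlinarith
    have h3 : (C * ((r : ℝ) ^ 2 * Real.log n)) ^ (r - 1) ≤ (n : ℝ) ^ ε :=
      (pow_le_pow_right₀ hB (Nat.sub_le r 1)).trans h2
    have hc0 : 0 ≤ (a ω).cost := by
      unfold Algorithm.cost
      apply div_nonneg
      · exact Finset.sum_nonneg fun _ _ => Nat.cast_nonneg _
      · positivity
    have h4 : (n : ℝ) ^ 2 ≤ (n : ℝ) ^ ε * (a ω).cost :=
      h1.trans (mul_le_mul_of_nonneg_right h3 hc0)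
    have hn0 : (0 : ℝ) < n := by linarith
    rw [Real.rpow_sub hn0, Real.rpow_two, div_le_iff₀ (Real.rpow_pos_of_pos hn0 ε), mul_comm]
    exact h4

end Pool.Agent.Results.MP_f42afa_pr.FewRounds
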